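import Mathlib

/-!
A connected graph with a finite strong resolving set has a nonempty finite vertex set `W` for which
the geodesic-ray orientation `G_W` contains no bad pair.
-/

namespace Pool.Agent.Results.MP_dec24c_co.FiniteStrongDim

open SimpleGraph Relation

universe u

variable {V : Type u}

/-- `R` is a geodesic ray of `G`: a one-way infinite path `R 0, R 1, …` of distinct vertices all of
whose finite subpaths are shortest paths. -/
structure IsGeodesicRay (G : SimpleGraph V) (R : ℕ → V) : Prop where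
  /-- distinct vertices -/
  inj : Function.Injective R
  /-- consecutive vertices are adjacent -/
  adj : ∀ n, G.Adj (R n) (R (n + 1))
  /-- finite subpaths are shortest paths -/
  geod : ∀ m n, m ≤ n → G.dist (R m) (R n) = n - m

/-- A geodesic `W`-ray: a geodesic ray whose initial vertex lies in `W`. -/
def IsGeodesicWRay (G : SimpleGraph V) (W : Set V) (R : ℕ → V) : Prop :=
  IsGeodesicRay G R ∧ R 0 ∈ W

/-- The edge `xy` is directed `x → y` in `G_W`: some geodesic `W`-ray contains both `x` and `y`, and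
every geodesic `W`-ray containing both traverses the edge from `x` to `y`. -/
def Directed (G : SimpleGraph V) (W : Set V) (x y : V) : Prop :=
  G.Adj x y ∧ (∃ R, IsGeodesicWRay G W R ∧ x ∈ Set.range R ∧ y ∈ Set.range R) ∧
    ∀ R, IsGeodesicWRay G W R → x ∈ Set.range R → y ∈ Set.range R →
      ∃ n, R n = x ∧ R (n + 1) = y

/-- The edge `xy` stays undirected in `G_W`. -/
def Undirected (G : SimpleGraph V) (W : Set V) (x y : V) : Prop :=
  G.Adj x y ∧ ¬ Directed G W x y ∧ ¬ Directed G W y x

/-- One may go from `x` to `y` in `G_W`: `xy` is undirected or directed `x → y`. -/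
def Step (G : SimpleGraph V) (W : Set V) (x y : V) : Prop :=
  Undirected G W x y ∨ Directed G W x y

/-- `G_W` has a path `u = x 0, x 1, …, x k = v` from `u` to `v`. -/
def HasPath (G : SimpleGraph V) (W : Set V) (u v : V) : Prop :=
  ∃ (k : ℕ) (x : ℕ → V), x 0 = u ∧ x k = v ∧
    (∀ i j, i ≤ k → j ≤ k → x i = x j → i = j) ∧ ∀ i < k, Step G W (x i) (x (i + 1))

/-- `u, v` is a bad pair in `G_W`. -/
def BadPair (G : SimpleGraph V) (W : Set V) (u v : V) : Prop :=
  u ≠ v ∧ ¬ HasPath G W u v ∧ ¬ HasPath G W v u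

/-- The vertex `w` strongly resolves `u` and `v`. -/
def StronglyResolves (G : SimpleGraph V) (w u v : V) : Prop :=
  G.dist w v = G.dist w u + G.dist u v ∨ G.dist w u = G.dist w v + G.dist v u

/-- `S` is a strong resolving set. -/
def IsStrongResolving (G : SimpleGraph V) (S : Set V) : Prop :=
  ∀ u v, u ≠ v → ∃ w ∈ S, StronglyResolves G w u v

/-- The strong metric dimension `β_S(G)`: the least cardinality of a finite strong resolving set,
and `∞` if there is none. -/
noncomputable def betaS (G : SimpleGraph V) : ℕ∞ :=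
  ⨅ S : {S : Finset V // IsStrongResolving G (S : Set V)}, (S.1.card : ℕ∞)

/-! ### Paths -/

lemma hasPath_of_rtg {G : SimpleGraph V} {W : Set V} {u v : V}
    (h : ReflTransGen (Step G W) u v) : HasPath G W u v := by
  classical
  -- first a walk
  have hwalk : ∃ (k : ℕ) (x : ℕ → V), x 0 = u ∧ x k = v ∧ ∀ i < k, Step G W (x i) (x (i + 1)) := by
    induction h with
    | refl => exact ⟨0, fun _ => u, rfl, rfl, fun i hi => absurd hi (Nat.not_lt_zero _)⟩
    | tail _ hbc ih =>
      rename_i b c _
      obtain ⟨k, x, h0, hk, hs⟩ := ih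
      refine ⟨k + 1, fun i => if i ≤ k then x i else c, by simp [h0], by simp, ?_⟩
      intro i hi
      rcases Nat.lt_succ_iff_lt_or_eq.1 hi with hlt | rfl
      · have h1 : i ≤ k := hlt.le
        have h2 : i + 1 ≤ k := hlt
        simp only [h1, h2, if_true]
        exact hs i hlt
      · simp only [le_refl, if_true, Nat.not_succ_le_self, if_false]
        rw [hk]; exact hbc
  let k := Nat.find hwalk
  obtain ⟨x, h0, hk, hs⟩ := Nat.find_spec hwalk
  refine ⟨k, x, h0, hk, ?_, hs⟩
  have key : ∀ i j, i ≤ k → j ≤ k → x i = x j → ¬ i < j := by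
    intro i j hi hj hij hlt
    have hmin := Nat.find_min hwalk (m := k - (j - i)) (by omega)
    apply hmin
    refine ⟨fun t => if t ≤ i then x t else x (t + (j - i)), by simp [h0], ?_, ?_⟩
    · by_cases h1 : k - (j - i) ≤ i
      · have h2 : j = k := by omega
        have h3 : k - (j - i) = i := by omega
        simp only [h1, if_true]
        rw [h3, hij, h2]; exact hk
      · simp only [h1, if_false]
        have h3 : k - (j - i) + (j - i) = k := by omega
        rw [h3]; exact hk
    · intro t ht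
      by_cases h1 : t + 1 ≤ i
      · have h2 : t ≤ i := by omega
        simp only [h1, h2, if_true]
        exact hs t (by omega)
      · by_cases h2 : t ≤ i
        · have h3 : t = i := by omega
          simp only [h1, h2, if_true, if_false]
          rw [h3, hij]
          have h4 : i + 1 + (j - i) = j + 1 := by omega
          rw [h4]
          exact hs j (by omega)
        · simp only [h1, h2, if_false]
          have h4 : t + 1 + (j - i) = t + (j - i) + 1 := by omega
          rw [h4]
          exact hs _ (by omega)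
  intro i j hi hj hij
  rcases lt_trichotomy i j with h | h | h
  · exact absurd h (key i j hi hj hij)
  · exact h
  · exact absurd h (key j i hj hi hij.symm)

/-! ### Distances -/

lemma first_step {G : SimpleGraph V} (hG : G.Connected) {x z : V} (h : x ≠ z) :
    ∃ y, G.Adj x y ∧ G.dist x z = G.dist y z + 1 := by
  obtain ⟨p, hp⟩ := hG.exists_walk_length_eq_dist x z
  cases p with
  | nil => exact absurd rfl h
  | cons hadj q =>
    rename_i y
    refine ⟨y, hadj, ?_⟩
    rw [Walk.length_cons] at hp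
    have h1 := G.dist_le q
    have h2 := hG.dist_triangle (u := x) (v := y) (w := z)
    have h3 : G.dist x y = 1 := dist_eq_one_iff_adj.2 hadj
    omega

section core

variable {G : SimpleGraph V} (hG : G.Connected) {S : Finset V}
  (hS : IsStrongResolving G (S : Set V))

/-- arbitrarily long geodesics from `s` through `y` -/
def Good (G : SimpleGraph V) (s y : V) : Prop :=
  ∀ n : ℕ, ∃ z, G.dist s z = G.dist s y + G.dist y z ∧ n ≤ G.dist y z

include hG in
lemma adj_dist_le {s x y : V} (h : G.Adj x y) : G.dist s y ≤ G.dist s x + 1 := by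
  have h2 := hG.dist_triangle (u := s) (v := x) (w := y)
  have h3 : G.dist x y = 1 := dist_eq_one_iff_adj.2 h
  omega

include hG in
/-- the first step of a geodesic along which `dist s` increases -/
lemma inc_step {s u v : V} (h : G.dist s v = G.dist s u + G.dist u v) (huv : u ≠ v) :
    ∃ u1, G.Adj u u1 ∧ G.dist u v = G.dist u1 v + 1 ∧ G.dist s u1 = G.dist s u + 1 ∧
      G.dist s v = G.dist s u1 + G.dist u1 v := by
  obtain ⟨u1, hadj, hd⟩ := first_step hG huv
  have h1 := adj_dist_le hG (s := s) hadj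
  have h2 := hG.dist_triangle (u := s) (v := u1) (w := v)
  exact ⟨u1, hadj, hd, by omega, by omega⟩

include hG in
lemma good_of_good {s u v : V} (h : G.dist s v = G.dist s u + G.dist u v) (hv : Good G s v) :
    Good G s u := by
  intro n
  obtain ⟨z, hz, hn⟩ := hv n
  have h2 := hG.dist_triangle (u := u) (v := v) (w := z)
  have h3 := hG.dist_triangle (u := s) (v := u) (w := z)
  exact ⟨z, by omega, by omega⟩

include hG hS in
lemma fin_le {s0 : V} (hs0 : s0 ∈ S) (n : ℕ) : {x | G.dist s0 x ≤ n}.Finite := by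
  let D := S.sup fun s => G.dist s s0
  apply Set.Finite.of_finite_image (f := fun x => fun s : S => G.dist s.1 x)
  · apply Set.Finite.subset (Set.Finite.pi (t := fun _ : S => Set.Iic (n + D))
      fun _ => Set.finite_Iic _)
    rintro g ⟨x, hx, rfl⟩ s -
    have h1 := hG.dist_triangle (u := s.1) (v := s0) (w := x)
    have h2 : G.dist s.1 s0 ≤ D := Finset.le_sup (f := fun s => G.dist s s0) s.2
    simp only [Set.mem_setOf_eq] at hx
    simp only [Set.mem_Iic]
    omega
  · intro x _ y _ hxy
    by_contra hne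
    obtain ⟨s, hs, hr⟩ := hS x y hne
    have h1 := congrFun hxy ⟨s, hs⟩
    simp only at h1
    have h2 := hG.pos_dist_of_ne hne
    rcases hr with hr | hr
    · omega
    · rw [G.dist_comm (u := y)] at hr
      omega

/-- the type of a vertex -/
noncomputable def typ (G : SimpleGraph V) (S : Finset V) (s0 x : V) : S → ℤ :=
  fun s => (G.dist s.1 x : ℤ) - G.dist s0 x

include hG hS in
lemma same_type {s0 p q : V} (hpq : typ G S s0 p = typ G S s0 q)
    (hle : G.dist s0 p ≤ G.dist s0 q) (s : V) (hs : s ∈ S) :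
    G.dist s q = G.dist s p + G.dist p q := by
  by_cases hne : p = q
  · subst hne; simp
  · obtain ⟨t, ht, hr⟩ := hS p q hne
    have h1 := congrFun hpq ⟨s, hs⟩
    have h2 := congrFun hpq ⟨t, ht⟩
    simp only [typ] at h1 h2
    have h3 := hG.pos_dist_of_ne hne
    rcases hr with hr | hr
    · omega
    · rw [G.dist_comm (u := q)] at hr
      omega

include hG hS in
lemma exists_N0 {s0 : V} (hs0 : s0 ∈ S) :
    ∃ N0 : ℕ, ∀ x, N0 ≤ G.dist s0 x → {y | typ G S s0 y = typ G S s0 x}.Infinite := by
  let D := S.sup fun s => G.dist s s0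
  have hfinrange : (Set.range (typ G S s0)).Finite := by
    apply Set.Finite.subset (Set.Finite.pi (t := fun _ : S => Set.Icc (-(D : ℤ)) D)
      fun _ => Set.finite_Icc _ _)
    rintro g ⟨x, rfl⟩ s -
    have h1 := hG.dist_triangle (u := s.1) (v := s0) (w := x)
    have h3 := hG.dist_triangle (u := s0) (v := s.1) (w := x)
    have h4 : G.dist s0 s.1 = G.dist s.1 s0 := G.dist_comm
    have h2 : G.dist s.1 s0 ≤ D := Finset.le_sup (f := fun s => G.dist s s0) s.2
    simp only [typ, Set.mem_Icc]
    omega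
  have hX : {x | {y | typ G S s0 y = typ G S s0 x}.Finite}.Finite := by
    apply Set.Finite.subset (Set.Finite.biUnion
      (s := {t | t ∈ Set.range (typ G S s0) ∧ {y | typ G S s0 y = t}.Finite})
      (t := fun t => {y | typ G S s0 y = t}) (hfinrange.subset fun t ht => ht.1)
      fun t ht => ht.2)
    intro x hx
    simp only [Set.mem_iUnion]
    exact ⟨typ G S s0 x, ⟨⟨x, rfl⟩, hx⟩, rfl⟩
  refine ⟨hX.toFinset.sup (fun x => G.dist s0 x) + 1, fun x hx => ?_⟩
  by_contra hcon
  rw [Set.not_infinite] at hcon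
  have : x ∈ hX.toFinset := by
    rw [Set.Finite.mem_toFinset]; exact hcon
  have h2 : G.dist s0 x ≤ hX.toFinset.sup (fun x => G.dist s0 x) :=
    Finset.le_sup (f := fun x => G.dist s0 x) this
  omega

include hG hS in
lemma good_of_inf {s0 y : V} (hs0 : s0 ∈ S)
    (h : {z | typ G S s0 z = typ G S s0 y}.Infinite) {s : V} (hs : s ∈ S) : Good G s y := by
  intro n
  obtain ⟨z, hz, hz2⟩ := h.exists_notMem_finite (fin_le hG hS hs0 (G.dist s0 y + n))
  simp only [Set.mem_setOf_eq, not_le] at hz hz2
  have h1 := same_type hG hS (p := y) (q := z) hz.symm (by omega)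
  exact ⟨z, h1 s hs, by have := h1 s0 hs0; omega⟩

include hG hS in
lemma good_step {s0 : V} (hs0 : s0 ∈ S) {s y : V} (hy : Good G s y) :
    ∃ y', G.Adj y y' ∧ G.dist s y' = G.dist s y + 1 ∧ Good G s y' := by
  by_contra hcon
  push Not at hcon
  have hb : ∀ y', ∃ n : ℕ, G.Adj y y' → G.dist s y' = G.dist s y + 1 →
      ∀ z, G.dist s z = G.dist s y' + G.dist y' z → G.dist y' z < n := by
    intro y'
    by_cases h1 : G.Adj y y'
    · by_cases h2 : G.dist s y' = G.dist s y + 1
      · have h3 := hcon y' h1 h2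
        unfold Good at h3
        push Not at h3
        obtain ⟨n, hn⟩ := h3
        exact ⟨n, fun _ _ => hn⟩
      · exact ⟨0, fun _ h => absurd h h2⟩
    · exact ⟨0, fun h => absurd h h1⟩
  choose b hb using hb
  have hfin := fin_le hG hS hs0 (G.dist s0 y + 1)
  let B := hfin.toFinset.sup b
  obtain ⟨z, hz, hn⟩ := hy (B + 1)
  have hne : y ≠ z := by
    rintro rfl
    simp at hn
  obtain ⟨y', hadj, hd, h1, h2⟩ := inc_step hG hz hne
  have h3 := hb y' hadj h1 z h2
  have h4 : y' ∈ hfin.toFinset := by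
    rw [Set.Finite.mem_toFinset]
    exact adj_dist_le hG hadj
  have h5 : b y' ≤ B := Finset.le_sup (f := b) h4
  omega

include hG hS in
lemma exists_inc_ray {s0 : V} (hs0 : s0 ∈ S) {s y : V} (hy : Good G s y) :
    ∃ R : ℕ → V, R 0 = y ∧ (∀ n, G.Adj (R n) (R (n + 1))) ∧
      ∀ n, G.dist s (R n) = G.dist s y + n := by
  have hstep : ∀ a : {a // Good G s a}, ∃ b : {b // Good G s b},
      G.Adj a.1 b.1 ∧ G.dist s b.1 = G.dist s a.1 + 1 := by
    rintro ⟨a, ha⟩
    obtain ⟨b, h1, h2, h3⟩ := good_step hG hS hs0 ha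
    exact ⟨⟨b, h3⟩, h1, h2⟩
  choose nxt hnxt using hstep
  let F : ℕ → {a // Good G s a} := fun n => Nat.rec ⟨y, hy⟩ (fun _ a => nxt a) n
  have hF : ∀ n, F (n + 1) = nxt (F n) := fun n => rfl
  refine ⟨fun n => (F n).1, rfl, fun n => ?_, fun n => ?_⟩
  · show G.Adj (F n).1 (F (n + 1)).1
    rw [hF]; exact (hnxt (F n)).1
  · show G.dist s (F n).1 = _
    induction n with
    | zero => rfl
    | succ n ih =>
      rw [hF, (hnxt (F n)).2, ih]; ring

include hG hS in
lemma ray_through {s0 : V} (hs0 : s0 ∈ S) {s x y : V} (hxy : G.Adj x y)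
    (hy1 : G.dist s y = G.dist s x + 1) (hy : Good G s y) (k : ℕ) :
    ∀ w, G.dist w x = k → G.dist s x = G.dist s w + G.dist w x →
    ∃ R : ℕ → V, R 0 = w ∧ R k = x ∧ R (k + 1) = y ∧ (∀ n, G.Adj (R n) (R (n + 1))) ∧
      ∀ n, G.dist s (R n) = G.dist s w + n := by
  induction k with
  | zero =>
    intro w hw hx
    obtain ⟨R, h0, hadj, hd⟩ := exists_inc_ray hG hS hs0 hy
    have hwx : w = x := by
      by_contra hne
      have := hG.pos_dist_of_ne hne
      omega
    subst hwx
    refine ⟨fun n => Nat.casesOn n w R, rfl, rfl, h0, ?_, ?_⟩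
    · intro n
      cases n with
      | zero => show G.Adj w (R 0); rw [h0]; exact hxy
      | succ n => exact hadj n
    · intro n
      cases n with
      | zero => rfl
      | succ n =>
        show G.dist s (R n) = _
        rw [hd]; omega
  | succ k ih =>
    intro w hw hx
    have hne : w ≠ x := by
      rintro rfl
      simp at hw
    obtain ⟨w1, hadj1, h1, h2, h3⟩ := inc_step hG hx hne
    obtain ⟨R, h0, hk, hk1, hadj, hd⟩ := ih w1 (by omega) h3
    refine ⟨fun n => Nat.casesOn n w R, rfl, hk, hk1, ?_, ?_⟩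
    · intro n
      cases n with
      | zero => show G.Adj w (R 0); rw [h0]; exact hadj1
      | succ n => exact hadj n
    · intro n
      cases n with
      | zero => rfl
      | succ n =>
        show G.dist s (R n) = _
        rw [hd]; omega

include hG in
lemma geodesic_of_inc {s : V} {R : ℕ → V} (hadj : ∀ n, G.Adj (R n) (R (n + 1)))
    (hd : ∀ n, G.dist s (R n) = G.dist s (R 0) + n) : IsGeodesicRay G R := by
  refine ⟨?_, hadj, ?_⟩
  · intro a b hab
    have h1 := hd a
    have h2 := hd b
    rw [hab] at h1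
    omega
  · intro m n hmn
    obtain ⟨k, rfl⟩ := Nat.exists_eq_add_of_le hmn
    have h1 : G.dist (R m) (R (m + k)) ≤ k := by
      clear hmn
      induction k with
      | zero => simp
      | succ k ih =>
        have := adj_dist_le hG (s := R m) (hadj (m + k))
        rw [← add_assoc]
        omega
    have h2 := hd m
    have h3 := hd (m + k)
    have h4 := hG.dist_triangle (u := s) (v := R m) (w := R (m + k))
    omega

include hG hS in
/-- along a geodesic ray the distance from some element of `S` increases all the time -/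
lemma ray_inc {R : ℕ → V} (hR : IsGeodesicRay G R) :
    ∃ s ∈ S, ∀ n, G.dist s (R n) = G.dist s (R 0) + n := by
  by_contra hcon
  push Not at hcon
  have hc : ∀ s, ∃ n, s ∈ S → G.dist s (R n) ≠ G.dist s (R 0) + n := by
    intro s
    by_cases h : s ∈ S
    · obtain ⟨n, hn⟩ := hcon s h
      exact ⟨n, fun _ => hn⟩
    · exact ⟨0, fun h' => absurd h' h⟩
  choose b hb using hc
  let n := S.sup b + S.sup (fun s => G.dist s (R 0)) + 1
  have hne : R 0 ≠ R n := by
    intro h
    have := hR.inj h
    omega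
  have hdn : G.dist (R 0) (R n) = n := by
    have := hR.geod 0 n (Nat.zero_le _)
    simpa using this
  obtain ⟨s, hs, hr⟩ := hS _ _ hne
  have h1 : b s ≤ S.sup b := Finset.le_sup (f := b) hs
  have h2 : G.dist s (R 0) ≤ S.sup (fun s => G.dist s (R 0)) :=
    Finset.le_sup (f := fun s => G.dist s (R 0)) hs
  rcases hr with hr | hr
  · have h3 := hb s hs
    have h4 := hG.dist_triangle (u := s) (v := R 0) (w := R (b s))
    have h5 := hG.dist_triangle (u := s) (v := R (b s)) (w := R n)
    have h6 := hR.geod 0 (b s) (Nat.zero_le _)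
    have h7 := hR.geod (b s) n (by omega)
    omega
  · rw [G.dist_comm (u := R n)] at hr
    omega

/-- The relation: some `dist s` increases and the head is good. -/
def Gam (G : SimpleGraph V) (S : Finset V) (x y : V) : Prop :=
  G.Adj x y ∧ ∃ s ∈ S, G.dist s y = G.dist s x + 1 ∧ Good G s y

/-- the closure of the sphere of radius `N` around `s0` -/
def Clo (G : SimpleGraph V) (S : Finset V) (s0 : V) (N : ℕ) : Set V :=
  {x | ∃ b, G.dist s0 b = N ∧ ReflTransGen (Gam G S) b x}

/-- the part of the closure within distance `N` -/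
def WW (G : SimpleGraph V) (S : Finset V) (s0 : V) (N : ℕ) : Set V :=
  {x | x ∈ Clo G S s0 N ∧ G.dist s0 x ≤ N}

lemma clo_step {s0 : V} {N : ℕ} {x y : V} (hx : x ∈ Clo G S s0 N) (h : Gam G S x y) :
    y ∈ Clo G S s0 N := by
  obtain ⟨b, hb, hbx⟩ := hx
  exact ⟨b, hb, hbx.tail h⟩

include hG in
lemma ivt {s0 : V} {N : ℕ} (k : ℕ) : ∀ s u, G.dist s u = k → G.dist s0 s ≤ N →
    N ≤ G.dist s0 u → ∃ w, G.dist s0 w = N ∧ G.dist s u = G.dist s w + G.dist w u := by
  induction k with
  | zero =>
    intro s u h h1 h2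
    have : s = u := by
      by_contra hne
      have := hG.pos_dist_of_ne hne
      omega
    subst this
    exact ⟨s, le_antisymm h1 h2, by simp⟩
  | succ k ih =>
    intro s u h h1 h2
    by_cases hN : G.dist s0 s = N
    · exact ⟨s, hN, by simp⟩
    · have hne : s ≠ u := by
        rintro rfl
        simp at h
      obtain ⟨s1, hadj, hd⟩ := first_step hG hne
      have h3 := adj_dist_le hG (s := s0) hadj
      obtain ⟨w, hw, hw2⟩ := ih s1 u (by omega) (by omega) h2
      refine ⟨w, hw, ?_⟩
      have h4 := hG.dist_triangle (u := s) (v := s1) (w := w)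
      have h5 : G.dist s s1 = 1 := dist_eq_one_iff_adj.2 hadj
      have h6 := hG.dist_triangle (u := s) (v := w) (w := u)
      omega

include hG in
lemma claim1 {s0 : V} {N : ℕ} (hN : ∀ s ∈ S, G.dist s0 s ≤ N) {u : V}
    (hu : u ∈ Clo G S s0 N) {s : V} (hs : s ∈ S) :
    ∃ w ∈ WW G S s0 N, G.dist s u = G.dist s w + G.dist w u := by
  by_cases h : G.dist s0 u ≤ N
  · exact ⟨u, ⟨hu, h⟩, by simp⟩
  · push Not at h
    obtain ⟨w, hw, hw2⟩ := ivt hG (s0 := s0) (N := N) _ s u rfl (hN s hs) h.le
    exact ⟨w, ⟨⟨w, hw, ReflTransGen.refl⟩, hw.le⟩, hw2⟩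

lemma step_of {W : Set V} {x y : V} (h : G.Adj x y) (h2 : ¬ Directed G W y x) : Step G W x y := by
  by_cases h3 : Directed G W x y
  · exact Or.inr h3
  · exact Or.inl ⟨h, h3, h2⟩

include hG hS in
lemma claim2 {s0 : V} (hs0 : s0 ∈ S) {N : ℕ} (hN : ∀ s ∈ S, G.dist s0 s ≤ N) {x y : V}
    (hx : x ∈ Clo G S s0 N) (h : Gam G S x y) : Step G (WW G S s0 N) x y := by
  obtain ⟨hadj, s, hs, h1, h2⟩ := h
  refine step_of hadj ?_
  rintro ⟨-, -, hall⟩
  obtain ⟨w, hw, hw2⟩ := claim1 hG hN hx hs
  obtain ⟨R, hR0, hRk, hRk1, hRadj, hRd⟩ :=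
    ray_through hG hS hs0 hadj h1 h2 (G.dist w x) w rfl hw2
  have hgeo : IsGeodesicRay G R := geodesic_of_inc hG hRadj (by rw [hR0]; exact hRd)
  obtain ⟨n, hn1, hn2⟩ := hall R ⟨hgeo, by rw [hR0]; exact hw⟩ ⟨_, hRk1⟩ ⟨_, hRk⟩
  have h3 : n = G.dist w x + 1 := hgeo.inj (by rw [hn1, hRk1])
  have h4 : n + 1 = G.dist w x := hgeo.inj (by rw [hn2, hRk])
  omega

include hG hS in
lemma claim3 {s0 : V} {N : ℕ} {R : ℕ → V}
    (hR : IsGeodesicWRay G (WW G S s0 N) R) (n : ℕ) : R n ∈ Clo G S s0 N := by
  obtain ⟨s, hs, hinc⟩ := ray_inc hG hS hR.1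
  induction n with
  | zero => exact hR.2.1
  | succ n ih =>
    refine clo_step ih ⟨hR.1.adj n, s, hs, by rw [hinc (n + 1), hinc n]; ring, ?_⟩
    intro m
    refine ⟨R (n + 1 + m), ?_, ?_⟩
    · rw [hR.1.geod _ _ (by omega : n + 1 ≤ n + 1 + m), hinc (n + 1 + m), hinc (n + 1)]
      omega
    · rw [hR.1.geod _ _ (by omega : n + 1 ≤ n + 1 + m)]
      omega

include hG hS in
lemma claim4 {s0 : V} {N : ℕ} {x y : V} (hadj : G.Adj x y)
    (h : x ∉ Clo G S s0 N ∨ y ∉ Clo G S s0 N) : Step G (WW G S s0 N) x y := by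
  refine step_of hadj ?_
  rintro ⟨-, ⟨R, hR, ⟨a, ha⟩, ⟨b, hb⟩⟩, -⟩
  rcases h with h | h
  · exact h (hb ▸ claim3 hG hS hR b)
  · exact h (ha ▸ claim3 hG hS hR a)

include hG hS in
lemma claim5 {s0 : V} (hs0 : s0 ∈ S) {N : ℕ} (hN : ∀ s ∈ S, G.dist s0 s ≤ N) {s v : V}
    (hs : s ∈ S) (hv : Good G s v) (k : ℕ) : ∀ u, G.dist u v = k → u ∈ Clo G S s0 N →
    G.dist s v = G.dist s u + G.dist u v → ReflTransGen (Step G (WW G S s0 N)) u v := by
  induction k with
  | zero =>
    intro u hu _ _
    have : u = v := by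
      by_contra hne
      have := hG.pos_dist_of_ne hne
      omega
    subst this
    exact ReflTransGen.refl
  | succ k ih =>
    intro u hu hC hd
    have hne : u ≠ v := by
      rintro rfl
      simp at hu
    obtain ⟨u1, hadj, h1, h2, h3⟩ := inc_step hG hd hne
    have hgam : Gam G S u u1 := ⟨hadj, s, hs, h2, good_of_good hG h3 hv⟩
    exact ReflTransGen.head (claim2 hG hS hs0 hN hC hgam)
      (ih u1 (by omega) (clo_step hC hgam) h3)

include hG hS in
lemma rtg_step {s0 : V} (hs0 : s0 ∈ S) {N : ℕ} (hN : ∀ s ∈ S, G.dist s0 s ≤ N) {b v : V}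
    (hb : b ∈ Clo G S s0 N) (h : ReflTransGen (Gam G S) b v) :
    ReflTransGen (Step G (WW G S s0 N)) b v ∧ v ∈ Clo G S s0 N := by
  induction h with
  | refl => exact ⟨ReflTransGen.refl, hb⟩
  | tail _ h2 ih => exact ⟨ih.1.tail (claim2 hG hS hs0 hN ih.2 h2), clo_step ih.2 h2⟩

include hG hS in
/-- The main combinatorial statement. -/
lemma main [Infinite V] :
    ∃ W : Finset V, W.Nonempty ∧ ∀ u v, ReflTransGen (Step G (W : Set V)) u v ∨
      ReflTransGen (Step G (W : Set V)) v u := by
  obtain ⟨a, b, hab⟩ := exists_pair_ne V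
  obtain ⟨s0, hs0, -⟩ := hS a b hab
  have hs0' : s0 ∈ S := hs0
  obtain ⟨N0, hN0⟩ := exists_N0 hG hS hs0'
  let D := S.sup fun s => G.dist s0 s
  have hD : ∀ s ∈ S, G.dist s0 s ≤ D := fun s hs => Finset.le_sup (f := fun s => G.dist s0 s) hs
  let N := N0 + 4 * D
  have hN : ∀ s ∈ S, G.dist s0 s ≤ N := fun s hs => by have := hD s hs; omega
  have hupper : ∀ s ∈ S, ∀ x, G.dist s x ≤ G.dist s0 x + D := by
    intro s hs x
    have h1 := hG.dist_triangle (u := s) (v := s0) (w := x)
    have h2 := hD s hs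
    rw [G.dist_comm (u := s0)] at h2
    omega
  have hlower : ∀ s ∈ S, ∀ x, G.dist s0 x ≤ G.dist s x + D := by
    intro s hs x
    have h1 := hG.dist_triangle (u := s0) (v := s) (w := x)
    have h2 := hD s hs
    omega
  have hWfin : (WW G S s0 N).Finite := (fin_le hG hS hs0' N).subset fun x hx => hx.2
  -- the sphere is nonempty
  obtain ⟨b0, hb0⟩ : ∃ b, G.dist s0 b = N := by
    obtain ⟨x, hx⟩ := (fin_le hG hS hs0' N).exists_notMem
    simp only [Set.mem_setOf_eq, not_le] at hx
    obtain ⟨w, hw, -⟩ := ivt hG (s0 := s0) (N := N) _ s0 x rfl (by simp) hx.le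
    exact ⟨w, hw⟩
  have hb0C : b0 ∈ Clo G S s0 N := ⟨b0, hb0, ReflTransGen.refl⟩
  refine ⟨hWfin.toFinset, ⟨b0, by rw [Set.Finite.mem_toFinset]; exact ⟨hb0C, hb0.le⟩⟩, ?_⟩
  rw [Set.Finite.coe_toFinset]
  -- pairs inside the closure
  have hdir : ∀ u v, u ∈ Clo G S s0 N → v ∈ Clo G S s0 N → ∀ s ∈ S,
      G.dist s v = G.dist s u + G.dist u v → ReflTransGen (Step G (WW G S s0 N)) u v := by
    intro u v hu hv s hs hd
    by_cases hgood : Good G s v
    · exact claim5 hG hS hs0' hN hs hgood _ u rfl hu hd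
    · have hvN : G.dist s0 v < N0 := by
        by_contra hcon
        push Not at hcon
        exact hgood (good_of_inf hG hS hs0' (hN0 v hcon) hs)
      obtain ⟨b, hb, hbv⟩ := hv
      have hbC : b ∈ Clo G S s0 N := ⟨b, hb, ReflTransGen.refl⟩
      have h1 := hupper s hs v
      have h2 := hlower s hs u
      have hub : u ≠ b := by
        rintro rfl
        omega
      obtain ⟨t, ht, hr⟩ := hS u b hub
      have ht' : t ∈ S := ht
      have h3 := hupper t ht' u
      have h4 := hlower t ht' b
      refine ReflTransGen.trans ?_ (rtg_step hG hS hs0' hN hbC hbv).1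
      rcases hr with hr | hr
      · exact claim5 hG hS hs0' hN ht' (good_of_inf hG hS hs0' (hN0 b (by omega)) ht') _ u rfl hu hr
      · exfalso
        omega
  have hpair : ∀ u v, u ∈ Clo G S s0 N → v ∈ Clo G S s0 N →
      ReflTransGen (Step G (WW G S s0 N)) u v ∨ ReflTransGen (Step G (WW G S s0 N)) v u := by
    intro u v hu hv
    by_cases huv : u = v
    · subst huv; exact Or.inl ReflTransGen.refl
    · obtain ⟨s, hs, hr⟩ := hS u v huv
      rcases hr with hr | hr
      · exact Or.inl (hdir u v hu hv s hs hr)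
      · exact Or.inr (hdir v u hv hu s hs hr)
  -- every vertex is tied to the closure
  have htie : ∀ u, ∃ c ∈ Clo G S s0 N, ReflTransGen (Step G (WW G S s0 N)) u c ∧
      ReflTransGen (Step G (WW G S s0 N)) c u := by
    intro u
    obtain ⟨p⟩ := hG.preconnected u b0
    induction p with
    | nil => exact ⟨_, hb0C, ReflTransGen.refl, ReflTransGen.refl⟩
    | cons hadj q ih =>
      rename_i x y z
      obtain ⟨c, hc, h1, h2⟩ := ih hb0 hb0C
      by_cases hx : x ∈ Clo G S s0 N
      · exact ⟨x, hx, ReflTransGen.refl, ReflTransGen.refl⟩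
      · exact ⟨c, hc, ReflTransGen.head (claim4 hG hS hadj (Or.inl hx)) h1,
          h2.tail (claim4 hG hS hadj.symm (Or.inr hx))⟩
  intro u v
  obtain ⟨c, hc, h1, h2⟩ := htie u
  obtain ⟨d, hd, h3, h4⟩ := htie v
  rcases hpair c d hc hd with h | h
  · exact Or.inl (h1.trans (h.trans h4))
  · exact Or.inr (h3.trans (h.trans h2))

end core

/-- **Main theorem.** If `G` is a connected graph such that for every nonempty finite vertex set `W`
the orientation `G_W` contains a bad pair, then `β_S(G) = ∞`. -/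
theorem result (G : SimpleGraph V) (hG : G.Connected)
    (h : ∀ W : Finset V, W.Nonempty → ∃ u v, BadPair G (W : Set V) u v) : betaS G = ⊤ := by
  have hno : ∀ S : Finset V, ¬ IsStrongResolving G (S : Set V) := by
    intro S hS
    have hex : ∃ W : Finset V, W.Nonempty ∧ ∀ u v, ReflTransGen (Step G (W : Set V)) u v ∨
        ReflTransGen (Step G (W : Set V)) v u := by
      rcases finite_or_infinite V with hfin | hinf
      · obtain ⟨a⟩ := hG.nonempty
        refine ⟨{a}, Finset.singleton_nonempty _, fun u v => Or.inl ?_⟩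
        have hstep : ∀ x y, G.Adj x y → Step G (({a} : Finset V) : Set V) x y := by
          intro x y hxy
          refine step_of hxy ?_
          rintro ⟨-, ⟨R, hR, -⟩, -⟩
          exact not_injective_infinite_finite R hR.1.inj
        obtain ⟨p⟩ := hG.preconnected u v
        induction p with
        | nil => exact ReflTransGen.refl
        | cons hadj q ih => exact ReflTransGen.head (hstep _ _ hadj) ih
      · exact main hG hS
    obtain ⟨W, hW, hpath⟩ := hex
    obtain ⟨u, v, -, h1, h2⟩ := h W hW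
    rcases hpath u v with h3 | h3
    · exact h1 (hasPath_of_rtg h3)
    · exact h2 (hasPath_of_rtg h3)
  unfold betaS
  haveI : IsEmpty {S : Finset V // IsStrongResolving G (S : Set V)} :=
    ⟨fun S => hno S.1 S.2⟩
  exact iInf_of_empty _

end Pool.Agent.Results.MP_dec24c_co.FiniteStrongDim
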